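import Pool.Agent.R649.BT.Blocks2

set_option autoImplicit false

/-!
# The maximum principle at a point, with pointwise conditions at the crossings
-/

namespace Pool.Agent.L7h80.AP

open Relation
open Pool.Agent.TH335.LS (Act Net)
open Pool.Agent.R649.BT.Alt (cAt cOpp Path Adj Colour path_prod)

section
variable {H X : Type*} [Group H] [CompleteLinearOrder X]

/-- `a` and `b` move the point `r` in the same direction. -/
def Agree (ρ : Act H X) (a b : H) (r : X) : Prop :=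
  (r < ρ.f a r ↔ r < ρ.f b r) ∧ (ρ.f a r < r ↔ ρ.f b r < r)

variable {ρ : Act H X} {a b : H} {r : X}

theorem lt_inv (ρ : Act H X) (g : H) (r : X) : r < ρ.f g⁻¹ r ↔ ρ.f g r < r := by
  rw [← (ρ.f g).lt_iff_lt, ρ.self_inv]

theorem inv_lt (ρ : Act H X) (g : H) (r : X) : ρ.f g⁻¹ r < r ↔ r < ρ.f g r := by
  rw [← (ρ.f g).lt_iff_lt, ρ.self_inv]

theorem Agree.symm (h : Agree ρ a b r) : Agree ρ b a r := ⟨h.1.symm, h.2.symm⟩

theorem Agree.inv (h : Agree ρ a b r) : Agree ρ a⁻¹ b⁻¹ r := by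
  constructor
  · rw [lt_inv, lt_inv]; exact h.2
  · rw [inv_lt, inv_lt]; exact h.1

theorem Agree.le (h : Agree ρ a b r) (hb : ρ.f b r ≤ r) : ρ.f a r ≤ r := by
  rw [← not_lt] at hb ⊢
  rwa [h.1]

theorem Agree.ge (h : Agree ρ a b r) (hb : r ≤ ρ.f b r) : r ≤ ρ.f a r := by
  rw [← not_lt] at hb ⊢
  rwa [h.2]

theorem Agree.eq (h : Agree ρ a b r) (hb : ρ.f b r = r) : ρ.f a r = r :=
  le_antisymm (h.le hb.le) (h.ge hb.ge)

theorem Agree.dual (h : Agree ρ a b r) : Agree (X := Xᵒᵈ) ρ.dual a b r :=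
  ⟨h.2, h.1⟩

/-- A solid torus. -/
theorem agree_pow {p q : ℕ} (hp : 1 ≤ p) (hq : 1 ≤ q) (h : a ^ q = b ^ p) : Agree ρ a b r := by
  have h1 : ∀ {u v : H} {p q : ℕ}, 1 ≤ p → 1 ≤ q → u ^ q = v ^ p → r < ρ.f u r → r < ρ.f v r := by
    intro u v p q _ hq h hu
    rw [← not_le] at hu ⊢
    exact fun hv => hu (ρ.dir_le hq h hv)
  have h2 : ∀ {u v : H} {p q : ℕ}, 1 ≤ p → 1 ≤ q → u ^ q = v ^ p → ρ.f u r < r → ρ.f v r < r := by
    intro u v p q _ hq h hu
    rw [← not_le] at hu ⊢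
    exact fun hv => hu (ρ.dir_ge hq h hv)
  exact ⟨⟨h1 hp hq h, h1 hq hp h.symm⟩, ⟨h2 hp hq h, h2 hq hp h.symm⟩⟩

end

section corner
variable {H X : Type*} [Group H] [CompleteLinearOrder X] {V E C : Type}
  {v₁ v₂ : C → V} {e₁ e₂ : C → E}

theorem Agree.corner {ρ : Act H X} {ev : V → H} {ee : E → H} {r : X} (k : C × Bool)
    (h : Agree ρ ((ee (e₂ k.1))⁻¹ * ee (e₁ k.1)) ((ev (v₁ k.1))⁻¹ * ev (v₂ k.1)) r) :
    Agree ρ ((ee (cOpp e₁ e₂ k))⁻¹ * ee (cAt e₁ e₂ k))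
      ((ev (cAt v₁ v₂ k))⁻¹ * ev (cOpp v₁ v₂ k)) r := by
  obtain ⟨c, s⟩ := k
  cases s
  · exact h
  · have h1 := h.inv
    simp only [mul_inv_rev, inv_inv] at h1
    exact h1

/-- One colour of a checkerboard coloured diagram on the sphere. `v₁ c`, `v₂ c` are the two regions
of this colour at the crossing `c`, and `e₁ c`, `e₂ c` those of the other colour. `star v` is the list of
the corners of the region `v` as they are met along its boundary (clockwise for the white regions,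
counterclockwise for the black ones). -/
structure Face (v₁ v₂ : C → V) (e₁ e₂ : C → E) (star : V → List (C × Bool)) : Prop where
  mem : ∀ v k, k ∈ star v ↔ cAt v₁ v₂ k = v
  nodup : ∀ v, (star v).Nodup
  closed : ∀ v, ∃ a, Path e₁ e₂ a (star v) a

/-- Two regions of the same colour are opposite to each other at some crossing of the set `T`. -/
def Near (T : Set C) (v₁ v₂ : C → V) (a b : V) : Prop :=
  ∃ k : C × Bool, k.1 ∈ T ∧ cAt v₁ v₂ k = a ∧ cOpp v₁ v₂ k = b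

/-- The maximum principle: if at the crossings in `T` the current and the potential agree, if
there is no current at the other crossings and if the graph of the crossings in `T` is connected, then
the potential is constant. -/
theorem flat [Finite V] (ρ : Act H X) {star : V → List (C × Bool)}
    (hc : Face v₁ v₂ e₁ e₂ star) (T : Set C)
    (conn : ∀ a b, ReflTransGen (Near T v₁ v₂) a b) (ev : V → H) (ee : E → H) (r : X)
    (hT : ∀ c ∈ T, Agree ρ ((ee (e₂ c))⁻¹ * ee (e₁ c)) ((ev (v₁ c))⁻¹ * ev (v₂ c)) r)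
    (hT' : ∀ c ∉ T, ρ.f ((ee (e₂ c))⁻¹ * ee (e₁ c)) r = r) (a b : V) :
    ρ.f (ev a) r = ρ.f (ev b) r := by
  obtain ⟨M, hM⟩ : ∃ M, ∀ n, ρ.f (ev n) r ≤ ρ.f (ev M) r := by
    have : Nonempty V := ⟨a⟩
    exact Finite.exists_max fun n => ρ.f (ev n) r
  have step : ∀ n m, Near T v₁ v₂ n m → ρ.f (ev n) r = ρ.f (ev M) r →
      ρ.f (ev m) r = ρ.f (ev M) r := by
    rintro n m ⟨k, hk, hn, hm⟩ hnM
    obtain ⟨x, hx⟩ := hc.closed n
    have hprod := path_prod ee _ _ _ hx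
    rw [inv_mul_cancel] at hprod
    have h1 : ∀ g ∈ (star n).map (fun k => (ee (cOpp e₁ e₂ k))⁻¹ * ee (cAt e₁ e₂ k)),
        ρ.f g r ≤ r := by
      intro g hg
      obtain ⟨k', hk', rfl⟩ := List.mem_map.mp hg
      have hat := (hc.mem n k').mp hk'
      by_cases hT0 : k'.1 ∈ T
      · refine ((hT _ hT0).corner k').le ?_
        rw [ρ.inv_mul_le, hat, hnM]
        exact hM _
      · refine le_of_eq ?_
        obtain ⟨c, s⟩ := k'
        have h2 := hT' c hT0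
        cases s
        · exact h2
        · show ρ.f ((ee (e₁ c))⁻¹ * ee (e₂ c)) r = r
          rw [ρ.inv_mul_eq] at h2 ⊢
          exact h2.symm
    have h2 := ρ.list_eq _ h1 (by rw [hprod, ρ.one]) _
      (List.mem_map_of_mem ((hc.mem n k).mpr hn))
    have h3 := ((hT _ hk).corner k).symm.eq h2
    rw [ρ.inv_mul_eq, hn, hm] at h3
    exact h3.trans hnM
  have all : ∀ n, ρ.f (ev n) r = ρ.f (ev M) r := by
    intro n
    have h := conn M n
    induction h with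
    | refl => rfl
    | @tail a b _ hab ih => exact step a b hab ih
  rw [all a, all b]

/-- One colour of a diagram in a strip at one point. -/
theorem ports [Finite V] (ρ : Act H X) {g vL vR : V} {eg eL eR : E}
    {star : V → List (C × Bool)} (hc : Colour v₁ v₂ e₁ e₂ g vL vR eg eL eR star)
    (ev : V → H) (ee : E → H) (r : X)
    (hA : ∀ c, Agree ρ ((ee (e₂ c))⁻¹ * ee (e₁ c)) ((ev (v₁ c))⁻¹ * ev (v₂ c)) r) :
    (ρ.f (ev g) r ≤ ρ.f (ev vL) r → r ≤ ρ.f ((ee eL)⁻¹ * ee eg) r →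
      ρ.f (ev g) r ≤ ρ.f (ev vR) r) ∧
    (ρ.f (ev g) r ≤ ρ.f (ev vR) r → r ≤ ρ.f ((ee eg)⁻¹ * ee eR) r →
      ρ.f (ev g) r ≤ ρ.f (ev vL) r) ∧
    (ρ.f (ev vL) r ≤ ρ.f (ev g) r → ρ.f (ev vR) r ≤ ρ.f (ev g) r → ∀ n,
      ρ.f (ev n) r ≤ ρ.f (ev g) r) := by
  have net : Net ρ star (cOpp v₁ v₂)
      (fun k => (ee (cOpp e₁ e₂ k))⁻¹ * ee (cAt e₁ e₂ k)) (fun n => ρ.f (ev n) r) r := by
    refine ⟨fun n k hkn h => ?_, fun n k hkn h => ?_, fun n k hkn h => ?_⟩
    · have hat := (hc.mem n k).mp hkn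
      refine ((hA k.1).corner k).le ?_
      rw [ρ.inv_mul_le, hat]; exact h
    · have hat := (hc.mem n k).mp hkn
      refine ((hA k.1).corner k).ge ?_
      rw [ρ.le_inv_mul, hat]; exact h
    · have hat := (hc.mem n k).mp hkn
      have h1 := ((hA k.1).corner k).symm.eq h
      rw [ρ.inv_mul_eq, hat] at h1
      exact h1
  have hstep : ∀ a b, Adj v₁ v₂ a b → ∃ k ∈ star a, cOpp v₁ v₂ k = b := by
    rintro a b ⟨k, h1, h2⟩
    exact ⟨k, (hc.mem a k).mpr h1, h2⟩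
  have conn : ∀ n, ReflTransGen (fun a b => ∃ k ∈ star a, cOpp v₁ v₂ k = b) n g :=
    fun n => ReflTransGen.mono (fun a b h => hstep a b h) _ _ (hc.conn n)
  have inner : ∀ n, n ≠ g → n ≠ vL → n ≠ vR →
      ((star n).map fun k => (ee (cOpp e₁ e₂ k))⁻¹ * ee (cAt e₁ e₂ k)).prod = 1 := by
    intro n h1 h2 h3
    obtain ⟨a, ha⟩ := hc.inner n h1 h2 h3
    rw [path_prod ee _ _ _ ha, inv_mul_cancel]
  have adj_symm : ∀ a b, Adj v₁ v₂ a b → Adj v₁ v₂ b a := by
    rintro a b ⟨⟨c, s⟩, h1, h2⟩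
    refine ⟨(c, !s), ?_, ?_⟩ <;> cases s <;> simp_all [cAt, cOpp]
  refine ⟨fun h1 h2 => ?_, fun h1 h2 => ?_, fun h1 h2 n => ?_⟩
  · refine net.port (p := vL) (q := vR) ρ inner conn ?_ ?_ h1
    · exact ReflTransGen.mono (fun a b h => ⟨hstep a b h.1, h.2.2⟩) _ _ hc.link
    · rw [path_prod ee _ _ _ hc.left]; exact h2
  · refine net.port (p := vR) (q := vL) ρ (fun n h3 h4 h5 => inner n h3 h5 h4) conn ?_ ?_ h1
    · have h3 : ReflTransGen (fun a b => Adj v₁ v₂ a b ∧ a ≠ g ∧ b ≠ g) vR vL := by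
        have h4 := ReflTransGen.swap _ _ hc.link
        exact ReflTransGen.mono (fun a b h => ⟨adj_symm _ _ h.1, h.2.2, h.2.1⟩) _ _ h4
      exact ReflTransGen.mono (fun a b h => ⟨hstep a b h.1, h.2.2⟩) _ _ h3
    · rw [path_prod ee _ _ _ hc.right]; exact h2
  · exact net.le_ground ρ inner conn h1 h2 n

end corner

end Pool.Agent.L7h80.AP
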