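import Pool.Agent.L7h80.AP.Net

set_option autoImplicit false

/-!
# Alternating diagrams on the sphere and in a strip, with open tori at the crossings
-/

namespace Pool.Agent.L7h80.AP

open Relation
open Pool.Agent.TH335.LS (Act)
open Pool.Agent.R649.BT (fix_gens fixg Cap SCap ESys)
open Pool.Agent.R649.BT.Alt (cAt cOpp Path)

universe u

/-- A checkerboard coloured alternating diagram. -/
structure Diagram where
  /-- white regions -/
  W : Type
  /-- black regions -/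
  B : Type
  /-- crossings -/
  C : Type
  finW : Finite W
  finB : Finite B
  /-- the corners of a crossing are `w₁, b₁, w₂, b₂`, in counterclockwise order -/
  w₁ : C → W
  b₁ : C → B
  w₂ : C → W
  b₂ : C → B
  starW : W → List (C × Bool)
  starB : B → List (C × Bool)
  white : Face w₁ w₂ b₁ b₂ starW
  black : Face b₁ b₂ w₁ w₂ starB
  /-- the checkerboard graphs are connected -/
  connW : ∀ a b, ReflTransGen (Near Set.univ w₁ w₂) a b
  connB : ∀ a b, ReflTransGen (Near Set.univ b₁ b₂) a b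
  /-- a white region and a black region, whose generators are `1` -/
  baseW : W
  baseB : B

namespace Diagram

variable (D : Diagram)

/-- The generators are the regions. -/
abbrev Gen : Type := D.W ⊕ D.B

/-- the generator of a white region -/
def w (v : D.W) : FreeGroup D.Gen := FreeGroup.of (Sum.inl v)

/-- the generator of a black region -/
def b (v : D.B) : FreeGroup D.Gen := FreeGroup.of (Sum.inr v)

/-- `b₂⁻¹ b₁` at the crossing `c` -/
def u (c : D.C) : FreeGroup D.Gen := (D.b (D.b₂ c))⁻¹ * D.b (D.b₁ c)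

/-- `w₁⁻¹ w₂` at the crossing `c` -/
def v (c : D.C) : FreeGroup D.Gen := (D.w (D.w₁ c))⁻¹ * D.w (D.w₂ c)

/-- The relators of the fundamental group of the double branched cover of the complement of all
crossing balls: `u c` and `v c` (a basis for the torus of the crossing `c`) commute. -/
def relators : Set (FreeGroup D.Gen) :=
  {r | r = D.w D.baseW ∨ r = D.b D.baseB ∨
    ∃ c, r = D.u c * D.v c * (D.u c)⁻¹ * (D.v c)⁻¹}

/-- The fundamental group of the double branched cover of the complement of the crossing balls. -/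
abbrev Grp : Type := PresentedGroup D.relators

/-- The element `u c` of the group. -/
def U (c : D.C) : D.Grp := PresentedGroup.mk D.relators (D.u c)

/-- The element `v c` of the group. -/
def V (c : D.C) : D.Grp := PresentedGroup.mk D.relators (D.v c)

/-- The crossing `c` is not nugatory: the checkerboard graphs stay connected without it. -/
def Essential (c : D.C) : Prop :=
  (∀ a b, ReflTransGen (Near {c}ᶜ D.w₁ D.w₂) a b) ∧
    ∀ a b, ReflTransGen (Near {c}ᶜ D.b₁ D.b₂) a b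

end Diagram

/-- The action. -/
def actHom {G : Type*} [Group G] {X : Type u} [CompleteLinearOrder X] (ρ : G →* (X ≃o X)) :
    Act G X where
  f := ρ
  one := fun r => by rw [map_one]; rfl
  mul := fun g h r => by rw [map_mul]; rfl

section plane
variable {G : Type*} [Group G] {X : Type u} [CompleteLinearOrder X] (ρ : Act G X) (D : Diagram)
  (W : D.W → G) (B : D.B → G) {r : X}

theorem black_agree {c : D.C}
    (h : Agree ρ ((B (D.b₂ c))⁻¹ * B (D.b₁ c)) ((W (D.w₁ c))⁻¹ * W (D.w₂ c)) r) :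
    Agree ρ ((W (D.w₂ c))⁻¹ * W (D.w₁ c)) ((B (D.b₁ c))⁻¹ * B (D.b₂ c)) r := by
  have h1 := h.symm.inv
  simp only [mul_inv_rev, inv_inv] at h1
  exact h1

theorem plane_flat
    (h : ∀ c, Agree ρ ((B (D.b₂ c))⁻¹ * B (D.b₁ c)) ((W (D.w₁ c))⁻¹ * W (D.w₂ c)) r) :
    (∀ a b, ρ.f (W a) r = ρ.f (W b) r) ∧ ∀ a b, ρ.f (B a) r = ρ.f (B b) r := by
  have := D.finW
  have := D.finB
  refine ⟨flat ρ D.white Set.univ D.connW W B r (fun c _ => h c)
    (fun c hc => absurd (Set.mem_univ c) hc), ?_⟩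
  exact flat ρ D.black Set.univ D.connB B W r (fun c _ => black_agree ρ D W B (h c))
    (fun c hc => absurd (Set.mem_univ c) hc)

theorem plane_open {c₀ : D.C} (ess : D.Essential c₀)
    (h : ∀ c, c ≠ c₀ → Agree ρ ((B (D.b₂ c))⁻¹ * B (D.b₁ c)) ((W (D.w₁ c))⁻¹ * W (D.w₂ c)) r) :
    ρ.f ((B (D.b₂ c₀))⁻¹ * B (D.b₁ c₀)) r = r ↔
      ρ.f ((W (D.w₁ c₀))⁻¹ * W (D.w₂ c₀)) r = r := by
  have := D.finW
  have := D.finB
  have mem : ∀ c : D.C, c ∉ ({c₀}ᶜ : Set D.C) → c = c₀ := fun c hc => by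
    simpa using hc
  constructor
  · intro h0
    have h1 := flat ρ D.white {c₀}ᶜ ess.1 W B r (fun c hc => h c hc)
      (fun c hc => by rw [mem c hc]; exact h0) (D.w₁ c₀) (D.w₂ c₀)
    rw [ρ.inv_mul_eq]
    exact h1.symm
  · intro h0
    have h1 := flat ρ D.black {c₀}ᶜ ess.2 B W r (fun c hc => black_agree ρ D W B (h c hc))
      (fun c hc => by
        rw [mem c hc, ρ.inv_mul_eq]
        rw [ρ.inv_mul_eq] at h0
        exact h0.symm) (D.b₁ c₀) (D.b₂ c₀)
    rw [ρ.inv_mul_eq]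
    exact h1

end plane

/-- The relators of the fundamental group of the double cover of the complement of the encircling
circle `A` and of all crossing balls of a diagram in a strip: in the starting library the crossing `c` is
replaced by the rational tangle `D.p c / D.q c`, here only the relations which say that `D.u c`, `D.v c`
commute are kept. -/
def stripRel (D : Pool.Agent.R649.BT.Alt.Diagram) : Set (FreeGroup D.Gen) :=
  {r | r = D.w D.top ∨ r = D.b D.bot ∨
    (∃ c, r = D.u c * D.v c * (D.u c)⁻¹ * (D.v c)⁻¹) ∨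
    r = D.m * D.xL * D.m⁻¹ * D.xR ∨ r = D.m * D.yL * D.m⁻¹ * D.yR ∨
    r = D.t * D.t₁ * D.t⁻¹ * D.t₁⁻¹}

section strip

/-- The pointwise statements, from the relations in a group acting on a complete linear order. -/
theorem strip_esys {X H : Type*} [Group H] [CompleteLinearOrder X] (ρ : Act H X)
    (D : Pool.Agent.R649.BT.Alt.Diagram) (W : D.W → H) (B : D.B → H) (m : H)
    (hA : ∀ c r, Agree ρ ((B (D.b₂ c))⁻¹ * B (D.b₁ c)) ((W (D.w₁ c))⁻¹ * W (D.w₂ c)) r)
    (hx : m * ((W D.top)⁻¹ * W D.wL) * m⁻¹ * ((W D.top)⁻¹ * W D.wR) = 1)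
    (hy : m * ((B D.bL)⁻¹ * B D.bot) * m⁻¹ * ((B D.bR)⁻¹ * B D.bot) = 1) :
    ESys (ρ.f ((W D.top)⁻¹ * W D.wL)) (ρ.f ((B D.bL)⁻¹ * B D.bot))
      (ρ.f ((W D.top)⁻¹ * W D.wR)) (ρ.f ((B D.bR)⁻¹ * B D.bot)) (ρ.f m)
      (ρ.f (((B D.bR)⁻¹ * B D.bot)⁻¹ * ((W D.top)⁻¹ * W D.wR) * m))
      (ρ.f (((W D.top)⁻¹ * W D.wR) * ((B D.bR)⁻¹ * B D.bot)⁻¹ * m)) ∧
    ∀ r, ρ.f ((W D.top)⁻¹ * W D.wL) r = r → ρ.f ((B D.bL)⁻¹ * B D.bot) r = r →
      ρ.f ((W D.top)⁻¹ * W D.wR) r = r → ρ.f ((B D.bR)⁻¹ * B D.bot) r = r →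
      (∀ n, ρ.f (W n) r = ρ.f (W D.top) r) ∧ (∀ n, ρ.f (B n) r = ρ.f (B D.bot) r) := by
  have := D.finW
  have := D.finB
  have hB : ∀ c r, Agree ρ ((W (D.w₂ c))⁻¹ * W (D.w₁ c)) ((B (D.b₁ c))⁻¹ * B (D.b₂ c)) r := by
    intro c r
    have h1 := (hA c r).symm.inv
    simp only [mul_inv_rev, inv_inv] at h1
    exact h1
  have cW := fun r => ports ρ D.white W B r fun c => hA c r
  have cB := fun r => ports ρ D.black B W r fun c => hB c r
  have cW' := fun r => ports ρ.dual D.white W B r fun c => (hA c r).dual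
  have cB' := fun r => ports ρ.dual D.black B W r fun c => (hB c r).dual
  set xL := (W D.top)⁻¹ * W D.wL with hxL
  set yL := (B D.bL)⁻¹ * B D.bot with hyL
  set xR := (W D.top)⁻¹ * W D.wR with hxR
  set yR := (B D.bR)⁻¹ * B D.bot with hyR
  set t := yR⁻¹ * xR * m with htt
  set t₁ := xR * yR⁻¹ * m with htt1
  -- reformulations
  have eW1 : (W D.wL)⁻¹ * W D.top = xL⁻¹ := by rw [hxL]; group
  have eW2 : (B D.bot)⁻¹ * B D.bR = yR⁻¹ := by rw [hyR]; group
  have hmx : xR * (m * xL) = m := by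
    have h2 : m * xL * m⁻¹ = xR⁻¹ := mul_eq_one_iff_eq_inv.mp hx
    have h3 : m * xL = xR⁻¹ * m := by rw [← h2]; group
    rw [h3]; group
  have hmy : yR * (m * yL) = m := by
    have h2 : m * yL * m⁻¹ = yR⁻¹ := mul_eq_one_iff_eq_inv.mp hy
    have h3 : m * yL = yR⁻¹ * m := by rw [← h2]; group
    rw [h3]; group
  refine ⟨?_, ?_⟩
  · refine ⟨?_, ?_, ?_, ?_, ?_, ?_, ?_, ?_⟩
    · intro r
      rw [← ρ.mul, ← ρ.mul, mul_assoc, hmx]
    · intro r
      rw [← ρ.mul, ← ρ.mul, mul_assoc, hmy]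
    · intro r h1 h2
      constructor
      · exact (ρ.le_inv_mul _ _ _).mpr ((cW r).1 ((ρ.le_inv_mul _ _ _).mp h1) h2)
      · refine (ρ.le_inv_mul _ _ _).mpr ((cB' r).1 ((ρ.le_inv_mul _ _ _).mp h2) ?_)
        show ρ.f ((W D.wL)⁻¹ * W D.top) r ≤ r
        rw [eW1, ρ.inv_le]; exact h1
    · intro r h1 h2
      constructor
      · exact (ρ.inv_mul_le _ _ _).mpr ((cW' r).1 ((ρ.inv_mul_le _ _ _).mp h1) h2)
      · refine (ρ.inv_mul_le _ _ _).mpr ((cB r).1 ((ρ.inv_mul_le _ _ _).mp h2) ?_)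
        rw [eW1, ρ.le_inv]; exact h1
    · intro r h1 h2
      constructor
      · refine (ρ.le_inv_mul _ _ _).mpr ((cW r).2.1 ((ρ.le_inv_mul _ _ _).mp h1) ?_)
        rw [eW2, ρ.le_inv]; exact h2
      · exact (ρ.inv_mul_le _ _ _).mpr ((cB r).2.1 ((ρ.inv_mul_le _ _ _).mp h2) h1)
    · intro r h1 h2
      constructor
      · refine (ρ.inv_mul_le _ _ _).mpr ((cW' r).2.1 ((ρ.inv_mul_le _ _ _).mp h1) ?_)
        show ρ.f ((B D.bot)⁻¹ * B D.bR) r ≤ r
        rw [eW2, ρ.inv_le]; exact h2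
      · exact (ρ.le_inv_mul _ _ _).mpr ((cB' r).2.1 ((ρ.le_inv_mul _ _ _).mp h2) h1)
    · intro r
      rw [← ρ.mul, ← ρ.mul]
      congr 2
      rw [htt]; group
    · intro r s hs
      rw [htt1, ρ.mul, ρ.mul, ← hs, ρ.inv_self]
  · intro r t1 t2 t4 t5
    rw [hxL, ρ.inv_mul_eq] at t1
    rw [hyL, ρ.inv_mul_eq] at t2
    rw [hxR, ρ.inv_mul_eq] at t4
    rw [hyR, ρ.inv_mul_eq] at t5
    refine ⟨fun n => le_antisymm ?_ ?_, fun n => le_antisymm ?_ ?_⟩
    · exact (cW r).2.2 t1.le t4.le n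
    · exact (cW' r).2.2 t1.ge t4.ge n
    · exact (cB r).2.2 t2.ge t5.ge n
    · exact (cB' r).2.2 t2.le t5.le n


end strip

end Pool.Agent.L7h80.AP
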