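import Pool.Agent.L7h80.AP.Plane
import Pool.Agent.Results.MP_9ae2f3_gt.MixedTrees

set_option autoImplicit false

/-!
# Gluing at the crossings
-/

universe u v

namespace Pool.Agent.L7h80.AP

open Pool.Agent.R649.BT (Cap SCap Piece ESys cap_solid symm_fix sSup_fix sInf_fix fix_gens)
open Pool.Agent.L7h76.MT (Dir Both)
open Pool.Agent.TH335.LS (Act)
open Pool.Agent.Results.MP_9ae2f3_gt.MixedTrees (Kind pos dir_quadrant)

/-- The elements `x ^ A * e ^ B` with `A, B ≥ 0`, not both `0`. -/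
def cone {N : Type} [Group N] (x e : N) : Set N :=
  {g | ∃ A B : ℕ, 1 ≤ A + B ∧ g = x ^ A * e ^ B}

/-- A crossing is replaced by a rational tangle with positive parameter. -/
def Rational {G : Type u} [Group G] (y z : G) : Prop :=
  ∃ p q : ℕ, 1 ≤ p ∧ 1 ≤ q ∧ y ^ q = z ^ p

theorem both_symm {G : Type v} [Group G] {Q : Set G} {y z : G} (h : Both Q y z) : Both Q z y := by
  rcases h with ⟨h1, h2⟩ | ⟨h1, h2⟩
  · exact Or.inl ⟨h2, h1⟩
  · exact Or.inr ⟨h2, h1⟩

/-- What is needed at a capped crossing. -/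
theorem cross_cap {N : Type} {G : Type v} [Group N] [Group G] (f : N →* G) (Q : Set N) (P : Prop)
    (ih : P → Dir.{u} N Q) {y z : G} (glue : P → Both (f '' Q) y z) (solid : ¬ P → Rational y z)
    {X : Type u} [CompleteLinearOrder X] (ρ : G →* (X ≃o X)) (r : X) :
    Agree (actHom ρ) y z r ∧ (P → ρ y r = r → ∀ g, ρ (f g) r = r) := by
  by_cases hP : P
  · have h := ih hP
    have hb := glue hP
    exact ⟨⟨⟨fun hr => h.both_up f ρ hb hr, fun hr => h.both_up f ρ (both_symm hb) hr⟩,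
      ⟨fun hr => h.both_dn f ρ hb hr, fun hr => h.both_dn f ρ (both_symm hb) hr⟩⟩,
      fun _ hr g => h.both_fix f ρ hb hr g⟩
  · obtain ⟨p, q, hp, hq, hr⟩ := solid hP
    exact ⟨agree_pow hp hq hr, fun h => absurd h hP⟩

theorem gen_fix {ι : Type} {A : Type v} {G : Type*} [Group A] [Group G] (j : A →* G)
    (N : ι → Type) [∀ i, Group (N i)] (js : ∀ i, N i →* G) (T : Set ι)
    (gen : j.range ⊔ ⨆ i ∈ T, (js i).range = ⊤)
    {X : Type u} [CompleteLinearOrder X] (ρ : G →* (X ≃o X)) {p : X}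
    (hp : ∀ g, ρ (j g) p = p) (h : ∀ i ∈ T, ∀ g, ρ (js i g) p = p) (g : G) : ρ g p = p := by
  have hle : (⊤ : Subgroup G) ≤ (MulAction.stabilizer (X ≃o X) p).comap ρ := by
    rw [← gen, sup_le_iff]
    refine ⟨?_, iSup₂_le fun i hi => ?_⟩
    · rintro _ ⟨g, rfl⟩; exact hp g
    · rintro _ ⟨g, rfl⟩; exact h i hi g
  exact hle (Subgroup.mem_top g)

/-- The criterion for the closed cone. -/
theorem dir_cone {N : Type} [Group N] {x e : N} (hc : Commute x e)
    (h : ∀ (X : Type u) [CompleteLinearOrder X] (ρ : N →* (X ≃o X)) (p : X),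
      (∀ g, ρ g p = p) ∨ (p < ρ x p ∧ p < ρ e p) ∨ (ρ x p < p ∧ ρ e p < p)) :
    Dir.{u} N (cone x e) := by
  have key : ∀ (X : Type u) [CompleteLinearOrder X] (ρ : N →* (X ≃o X)) (A B : ℕ) (p : X),
      1 ≤ A + B → p < ρ x p → p < ρ e p → p < ρ (x ^ A * e ^ B) p := by
    intro X _ ρ A B p hAB hx he
    rw [map_mul, map_pow, map_pow]
    show p < (ρ x ^ A) ((ρ e ^ B) p)
    have up : ∀ {g : X ≃o X}, p < g p → ∀ k, p ≤ (g ^ k) p := by
      intro g hg k
      rcases Nat.eq_zero_or_pos k with h0 | h0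
      · rw [h0, pow_zero]; exact le_rfl
      · exact (Pool.Agent.Results.MP_9ae2f3_gt.GluedKnotExteriors.lt_pow hg k h0).le
    rcases Nat.eq_zero_or_pos A with h0 | h0
    · rw [h0, pow_zero]
      exact Pool.Agent.Results.MP_9ae2f3_gt.GluedKnotExteriors.lt_pow he B (by omega)
    · exact lt_of_lt_of_le (Pool.Agent.Results.MP_9ae2f3_gt.GluedKnotExteriors.lt_pow hx A h0)
        ((ρ x ^ A).monotone (up he B))
  have key' : ∀ (X : Type u) [CompleteLinearOrder X] (ρ : N →* (X ≃o X)) (A B : ℕ) (p : X),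
      1 ≤ A + B → ρ x p < p → ρ e p < p → ρ (x ^ A * e ^ B) p < p :=
    fun X _ ρ A B p hAB hx he =>
      key Xᵒᵈ (Pool.Agent.TH744.Tree.dualHom ρ) A B p hAB hx he
  refine ⟨?_, ?_, ?_⟩
  · rintro _ ⟨A, B, -, rfl⟩ _ ⟨C, D, -, rfl⟩
    have c1 : Commute (x ^ A) (x ^ C * e ^ D) :=
      ((Commute.refl x).pow_pow A C).mul_right (hc.pow_pow A D)
    have c2 : Commute (e ^ B) (x ^ C * e ^ D) :=
      (hc.symm.pow_pow B C).mul_right ((Commute.refl e).pow_pow B D)
    exact c1.mul_left c2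
  · rintro X _ ρ _ ⟨A, B, hAB, rfl⟩ _ ⟨C, D, hCD, rfl⟩ p hp
    rcases h X ρ p with k | k | k
    · rw [k] at hp; exact absurd hp (lt_irrefl _)
    · exact key X ρ C D p hCD k.1 k.2
    · exact absurd hp (not_lt.mpr (key' X ρ A B p hAB k.1 k.2).le)
  · rintro X _ ρ _ ⟨A, B, hAB, rfl⟩ p hp
    rcases h X ρ p with k | k | k
    · exact k
    · exact absurd hp (key X ρ A B p hAB k.1 k.2).ne'
    · exact absurd hp (key' X ρ A B p hAB k.1 k.2).ne

section plane
variable {G : Type v} [Group G] (D : Diagram) (j : D.Grp →* G)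

theorem eU (c : D.C) : j (D.U c) =
    (j (PresentedGroup.mk D.relators (D.b (D.b₂ c))))⁻¹ *
      j (PresentedGroup.mk D.relators (D.b (D.b₁ c))) := by
  rw [Diagram.U, Diagram.u, map_mul, map_inv, map_mul, map_inv]

theorem eV (c : D.C) : j (D.V c) =
    (j (PresentedGroup.mk D.relators (D.w (D.w₁ c))))⁻¹ *
      j (PresentedGroup.mk D.relators (D.w (D.w₂ c))) := by
  rw [Diagram.V, Diagram.v, map_mul, map_inv, map_mul, map_inv]

theorem comm_UV (c : D.C) : Commute (D.U c) (D.V c) := by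
  have h : PresentedGroup.mk D.relators (D.u c * D.v c * (D.u c)⁻¹ * (D.v c)⁻¹) = 1 :=
    PresentedGroup.one_of_mem (Or.inr (Or.inr ⟨c, rfl⟩))
  rw [map_mul, map_mul, map_mul, map_inv, map_inv, mul_inv_eq_one, mul_inv_eq_iff_eq_mul] at h
  exact h

variable {X : Type u} [CompleteLinearOrder X] (ρ : G →* (X ≃o X)) {r : X}

/-- All crossings are capped. -/
theorem plane_closed (h : ∀ c, Agree (actHom ρ) (j (D.U c)) (j (D.V c)) r) :
    ∀ g, ρ (j g) r = r := by
  obtain ⟨h1, h2⟩ := plane_flat (actHom ρ) D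
    (fun v => j (PresentedGroup.mk D.relators (D.w v)))
    (fun v => j (PresentedGroup.mk D.relators (D.b v))) (r := r) (fun c => by
      have := h c
      rw [eU, eV] at this
      exact this)
  have hw : j (PresentedGroup.mk D.relators (D.w D.baseW)) = 1 := by
    rw [PresentedGroup.one_of_mem (show D.w D.baseW ∈ D.relators from Or.inl rfl), map_one]
  have hb : j (PresentedGroup.mk D.relators (D.b D.baseB)) = 1 := by
    rw [PresentedGroup.one_of_mem (show D.b D.baseB ∈ D.relators from Or.inr (Or.inl rfl)),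
      map_one]
  refine fix_gens (ρ.comp j) ?_
  rintro (v | v)
  · have := h1 v D.baseW
    refine this.trans ?_
    show ρ (j (PresentedGroup.mk D.relators (D.w D.baseW))) r = r
    rw [hw, map_one]; rfl
  · have := h2 v D.baseB
    refine this.trans ?_
    show ρ (j (PresentedGroup.mk D.relators (D.b D.baseB))) r = r
    rw [hb, map_one]; rfl

/-- The crossing `c₀` is open. -/
theorem plane_tri {c₀ : D.C} (ess : D.Essential c₀)
    (h : ∀ c, c ≠ c₀ → Agree (actHom ρ) (j (D.U c)) (j (D.V c)) r) :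
    (∀ g, ρ (j g) r = r) ∨ (r < ρ (j (D.U c₀)) r ∧ r < ρ (j (D.V c₀))⁻¹ r) ∨
      (ρ (j (D.U c₀)) r < r ∧ ρ (j (D.V c₀))⁻¹ r < r) := by
  have h1 : ρ (j (D.U c₀)) r = r ↔ ρ (j (D.V c₀)) r = r := by
    have := plane_open (actHom ρ) D (fun v => j (PresentedGroup.mk D.relators (D.w v)))
      (fun v => j (PresentedGroup.mk D.relators (D.b v))) (r := r) ess (fun c hc => by
        have := h c hc
        rw [eU, eV] at this
        exact this)
    rw [eU, eV]
    exact this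
  have h2 : Agree (actHom ρ) (j (D.U c₀)) (j (D.V c₀)) r → ∀ g, ρ (j g) r = r := fun h2 =>
    plane_closed D j ρ fun c => by
      by_cases hc : c = c₀
      · rw [hc]; exact h2
      · exact h c hc
  have e1 : r < ρ (j (D.V c₀))⁻¹ r ↔ ρ (j (D.V c₀)) r < r := lt_inv (actHom ρ) _ r
  have e2 : ρ (j (D.V c₀))⁻¹ r < r ↔ r < ρ (j (D.V c₀)) r := inv_lt (actHom ρ) _ r
  rw [e1, e2]
  rcases lt_trichotomy (ρ (j (D.U c₀)) r) r with a | a | a <;>
    rcases lt_trichotomy (ρ (j (D.V c₀)) r) r with b | b | b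
  · exact Or.inl (h2 ⟨iff_of_false (not_lt.mpr a.le) (not_lt.mpr b.le), iff_of_true a b⟩)
  · exact absurd (h1.mpr b) a.ne
  · exact Or.inr (Or.inr ⟨a, b⟩)
  · exact absurd (h1.mp a) b.ne
  · exact Or.inl (h2 ⟨iff_of_false (not_lt.mpr a.le) (not_lt.mpr b.le),
      iff_of_false (not_lt.mpr a.ge) (not_lt.mpr b.ge)⟩)
  · exact absurd (h1.mp a) b.ne'
  · exact Or.inr (Or.inl ⟨a, b⟩)
  · exact absurd (h1.mpr b) a.ne'
  · exact Or.inl (h2 ⟨iff_of_true a b, iff_of_false (not_lt.mpr a.le) (not_lt.mpr b.le)⟩)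

end plane

end Pool.Agent.L7h80.AP
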