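import Pool.Agent.L7h80.AP.Steps

set_option autoImplicit false

/-!
# Diagrams in a strip, and gluing two members
-/

universe u v

namespace Pool.Agent.L7h80.AP

open Pool.Agent.R649.BT (Block Cap SCap Piece ESys cap_solid symm_fix sSup_fix sInf_fix fix_gens)
open Pool.Agent.L7h76.MT (Dir Both)
open Pool.Agent.TH335.LS (Act)
open Pool.Agent.TH744.Tree (dualHom)
open Pool.Agent.Results.MP_9ae2f3_gt.MixedTrees (Kind pos dir_quadrant)

section strip
variable {G : Type v} [Group G] (D : Pool.Agent.R649.BT.Alt.Diagram)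
  (j : PresentedGroup (stripRel D) →* G)

/-- The class of a word. -/
abbrev mk (w : FreeGroup D.Gen) : PresentedGroup (stripRel D) :=
  PresentedGroup.mk (stripRel D) w

theorem mk_one {w : FreeGroup D.Gen} (h : w ∈ stripRel D) : mk D w = 1 :=
  PresentedGroup.one_of_mem h

theorem comm_t : Commute (mk D D.t) (mk D D.t₁) := by
  have h := mk_one D (w := D.t * D.t₁ * D.t⁻¹ * D.t₁⁻¹)
    (Or.inr (Or.inr (Or.inr (Or.inr (Or.inr rfl)))))
  rw [mk, map_mul, map_mul, map_mul, map_inv, map_inv, mul_inv_eq_one, mul_inv_eq_iff_eq_mul] at h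
  exact h

theorem strip_main {X : Type u} [CompleteLinearOrder X] (ρ : G →* (X ≃o X))
    (hA : ∀ c r, Agree (actHom ρ) (j (mk D (D.u c))) (j (mk D (D.v c))) r) :
    ESys (ρ (j (mk D D.xL))) (ρ (j (mk D D.yL))) (ρ (j (mk D D.xR))) (ρ (j (mk D D.yR)))
      (ρ (j (mk D D.m))) (ρ (j (mk D D.t))) (ρ (j (mk D D.t₁))) ∧
    ∀ r, ρ (j (mk D D.xL)) r = r → ρ (j (mk D D.yL)) r = r → ρ (j (mk D D.xR)) r = r →
      ρ (j (mk D D.yR)) r = r → ρ (j (mk D D.m)) r = r → ∀ g, ρ (j g) r = r := by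
  have key := strip_esys (actHom ρ) D (fun v => j (mk D (D.w v))) (fun v => j (mk D (D.b v)))
    (j (mk D D.m)) (fun c r => by
      have := hA c r
      simp only [mk, Pool.Agent.R649.BT.Alt.Diagram.u, Pool.Agent.R649.BT.Alt.Diagram.v, map_mul,
        map_inv] at this
      exact this) ?_ ?_
  · have exL : j (mk D D.xL) = (j (mk D (D.w D.top)))⁻¹ * j (mk D (D.w D.wL)) := by
      rw [mk, Pool.Agent.R649.BT.Alt.Diagram.xL, map_mul, map_inv, map_mul, map_inv]
    have eyL : j (mk D D.yL) = (j (mk D (D.b D.bL)))⁻¹ * j (mk D (D.b D.bot)) := by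
      rw [mk, Pool.Agent.R649.BT.Alt.Diagram.yL, map_mul, map_inv, map_mul, map_inv]
    have exR : j (mk D D.xR) = (j (mk D (D.w D.top)))⁻¹ * j (mk D (D.w D.wR)) := by
      rw [mk, Pool.Agent.R649.BT.Alt.Diagram.xR, map_mul, map_inv, map_mul, map_inv]
    have eyR : j (mk D D.yR) = (j (mk D (D.b D.bR)))⁻¹ * j (mk D (D.b D.bot)) := by
      rw [mk, Pool.Agent.R649.BT.Alt.Diagram.yR, map_mul, map_inv, map_mul, map_inv]
    have et : j (mk D D.t) = (j (mk D D.yR))⁻¹ * j (mk D D.xR) * j (mk D D.m) := by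
      simp only [mk, Pool.Agent.R649.BT.Alt.Diagram.t, map_mul, map_inv]
    have et₁ : j (mk D D.t₁) = j (mk D D.xR) * (j (mk D D.yR))⁻¹ * j (mk D D.m) := by
      simp only [mk, Pool.Agent.R649.BT.Alt.Diagram.t₁, map_mul, map_inv]
    rw [et, et₁, exL, eyL, exR, eyR]
    refine ⟨key.1, fun r h1 h2 h3 h4 h5 => fix_gens (ρ.comp j) ?_⟩
    obtain ⟨k1, k2⟩ := key.2 r h1 h2 h3 h4
    have hw0 : mk D (D.w D.top) = 1 := mk_one D (Or.inl rfl)
    have hb0 : mk D (D.b D.bot) = 1 := mk_one D (Or.inr (Or.inl rfl))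
    rintro (v | v | ⟨⟩)
    · have := k1 v
      simp only [hw0, map_one] at this
      refine this.trans ?_
      show ρ 1 r = r
      rw [map_one]; rfl
    · have := k2 v
      simp only [hb0, map_one] at this
      refine this.trans ?_
      show ρ 1 r = r
      rw [map_one]; rfl
    · exact h5
  · have h1 := mk_one D (Or.inr (Or.inr (Or.inr (Or.inl rfl))))
    have h2 := congrArg j h1
    simpa only [mk, Pool.Agent.R649.BT.Alt.Diagram.xL, Pool.Agent.R649.BT.Alt.Diagram.xR, map_mul, map_inv, map_one] using h2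
  · have h1 := mk_one D (Or.inr (Or.inr (Or.inr (Or.inr (Or.inl rfl)))))
    have h2 := congrArg j h1
    simpa only [mk, Pool.Agent.R649.BT.Alt.Diagram.yL, Pool.Agent.R649.BT.Alt.Diagram.yR, map_mul, map_inv, map_one] using h2

theorem strip_closed {X : Type u} [CompleteLinearOrder X] (ρ : G →* (X ≃o X))
    (hA : ∀ c r, Agree (actHom ρ) (j (mk D (D.u c))) (j (mk D (D.v c))) r)
    (up : ∀ r, ¬ (r < ρ (j (mk D D.t)) r ∧ r < ρ (j (mk D D.t₁)) r))
    (down : ∀ r, ¬ (ρ (j (mk D D.t)) r < r ∧ ρ (j (mk D D.t₁)) r < r)) (p : X) (g) :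
    ρ (j g) p = p := by
  obtain ⟨h1, h2⟩ := strip_main D j ρ hA
  have h3 := h1.toSys up down
  obtain ⟨t1, t2, t3⟩ := h3.trivial p
  have t4 : ρ (j (mk D D.xR)) p = p := by
    have h4 := h1.rx p
    rwa [t1, t3] at h4
  have t5 : ρ (j (mk D D.yR)) p = p := by
    have h4 := h1.ry p
    rwa [t2, t3] at h4
  exact h2 p t1 t2 t4 t5 t3 g

/-- The torus of `A` is open. -/
theorem strip_dir (hA : ∀ (X : Type u) [CompleteLinearOrder X] (ρ : G →* (X ≃o X)) c r,
      Agree (actHom ρ) (j (mk D (D.u c))) (j (mk D (D.v c))) r)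
    (hgen : ∀ (X : Type u) [CompleteLinearOrder X] (ρ : G →* (X ≃o X)) (p : X),
      (∀ g, ρ (j g) p = p) → ∀ g, ρ g p = p) :
    Commute (j (mk D D.t)) (j (mk D D.t₁)) ∧
      Piece.{u} G (j (mk D D.t)) ((j (mk D D.t))⁻¹ * j (mk D D.t₁)) := by
  have hcm := (comm_t D).map j
  refine ⟨hcm, (Commute.refl _).inv_right.mul_right hcm, fun X _ ρ p hx ha => ?_,
    fun X _ ρ hd g p => ?_⟩
  · obtain ⟨h1, h2⟩ := strip_main D j ρ (hA X ρ)
    rw [map_mul, map_inv] at ha
    have h3 := congrArg (ρ (j (mk D D.t))) ha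
    have h4 : ρ (j (mk D D.t)) ((ρ (j (mk D D.t)))⁻¹ (ρ (j (mk D D.t₁)) p)) =
        ρ (j (mk D D.t₁)) p := (ρ (j (mk D D.t))).apply_symm_apply _
    rw [RelIso.mul_apply, h4, hx] at h3
    obtain ⟨a1, a2, a3, a4, a5⟩ := h1.fixT hx h3
    exact hgen X ρ p (h2 p a4 a5 a1 a2 a3)
  · refine hgen X ρ p (fun g => ?_) g
    have h0 := Cap.of_dom hd
    rw [← map_mul, mul_inv_cancel_left] at h0
    exact strip_closed D j ρ (hA X ρ) (fun r hr => absurd (h0.up r hr.1) (not_le.mpr hr.2))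
      (fun r hr => absurd (h0.down r hr.1) (not_le.mpr hr.2)) p g

/-- The torus of `A` is filled with a solid torus. -/
theorem strip_solid {a b : ℕ} (hab : 1 ≤ a + b) (hr : j (mk D D.t) ^ a * j (mk D D.t₁) ^ b = 1)
    {X : Type u} [CompleteLinearOrder X] (ρ : G →* (X ≃o X))
    (hA : ∀ c r, Agree (actHom ρ) (j (mk D (D.u c))) (j (mk D (D.v c))) r) (p : X) (g) :
    ρ (j g) p = p := by
  have key : ∀ (Y : Type u) [CompleteLinearOrder Y] (σ : G →* (Y ≃o Y)) (r : Y),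
      ¬ (r < σ (j (mk D D.t)) r ∧ r < σ (j (mk D D.t₁)) r) := by
    rintro Y _ σ r ⟨h1, h2⟩
    have h3 : σ (j (mk D D.t) ^ a * j (mk D D.t₁) ^ b) r = r := by rw [hr, map_one]; rfl
    rw [map_mul, map_pow, map_pow] at h3
    change (σ (j (mk D D.t)) ^ a) ((σ (j (mk D D.t₁)) ^ b) r) = r at h3
    have up : ∀ {g : Y ≃o Y}, r < g r → ∀ k, r ≤ (g ^ k) r := by
      intro g hg k
      rcases Nat.eq_zero_or_pos k with h0 | h0
      · rw [h0, pow_zero]; exact le_rfl
      · exact (Pool.Agent.Results.MP_9ae2f3_gt.GluedKnotExteriors.lt_pow hg k h0).le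
    rcases Nat.eq_zero_or_pos a with h0 | h0
    · rw [h0, pow_zero] at h3
      exact absurd h3 (Pool.Agent.Results.MP_9ae2f3_gt.GluedKnotExteriors.lt_pow h2 b
        (by omega)).ne'
    · exact absurd h3 (lt_of_lt_of_le
        (Pool.Agent.Results.MP_9ae2f3_gt.GluedKnotExteriors.lt_pow h1 a h0)
        ((σ (j (mk D D.t)) ^ a).monotone (up h2 b))).ne'
  exact strip_closed D j ρ hA (key X ρ) (fun r => key Xᵒᵈ (dualHom ρ) r) p g

end strip

section two
variable {N : Type} {M : Type} {G : Type v} [Group N] [Group M] [Group G]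

theorem two_up {x e : N} {Q : Set M} (h₁ : Dir.{u} N (pos .quadrant x e)) (h₂ : Dir.{u} M Q)
    (j : N →* G) (f : M →* G) (hb : Both (f '' Q) (j x) (j e)⁻¹) {X : Type u}
    [CompleteLinearOrder X] (ρ : G →* (X ≃o X)) (p : X) : ¬ p < ρ (j x) p := by
  intro hp
  have hs := h₂.scap f ρ hb
  have hc : ∀ v, ρ (j x) (ρ (j e) v) = ρ (j e) (ρ (j x) v) := hs.comm
  have hpe : ρ (j e) p < p := hs.up p hp
  have conv : ∀ v, ρ (j e) v = v → ρ (j x) v = v := by
    intro v hv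
    rcases lt_trichotomy (ρ (j x) v) v with h | h | h
    · exact absurd hv (hs.down v h).ne'
    · exact h
    · exact absurd hv (hs.up v h).ne
  have hxe : x ^ 1 * e ^ 1 ∈ pos .quadrant x e := ⟨1, 1, le_rfl, le_rfl, rfl⟩
  have e1 : ∀ (A B : ℕ) v, ρ.comp j (x ^ A * e ^ B) v = (ρ (j x) ^ A) ((ρ (j e) ^ B) v) := by
    intro A B v
    show ρ (j (x ^ A * e ^ B)) v = _
    rw [map_mul, map_mul, map_pow, map_pow, map_pow, map_pow]
    rfl
  rcases lt_trichotomy (ρ.comp j (x ^ 1 * e ^ 1) p) p with h | h | h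
  · -- all elements move `p` down
    have hall : ∀ A : ℕ, 1 ≤ A → (ρ (j x) ^ A) (ρ (j e) p) < p := by
      intro A hA
      have := h₁.dn (ρ.comp j) hxe (z := x ^ A * e ^ 1) ⟨A, 1, hA, le_rfl, rfl⟩ h
      rwa [e1, pow_one] at this
    set q := ρ (j e) p with hq
    have hqx : q < ρ (j x) q := by
      rw [hq, hc]; exact (ρ (j e)).lt_iff_lt.mpr hp
    set S : Set X := {w | ∃ A : ℕ, w = (ρ (j x) ^ A) q} with hS
    have hsle : sSup S ≤ p := by
      refine sSup_le ?_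
      rintro w ⟨A, rfl⟩
      rcases Nat.eq_zero_or_pos A with h0 | h0
      · rw [h0, pow_zero]; exact hpe.le
      · exact (hall A h0).le
    have hfix : ρ (j x) (sSup S) = sSup S := by
      refine le_antisymm ?_ ?_
      · rw [(ρ (j x)).map_sSup]
        refine iSup₂_le ?_
        rintro w ⟨A, rfl⟩
        refine le_sSup ⟨A + 1, ?_⟩
        rw [pow_succ']; rfl
      · refine sSup_le ?_
        rintro w ⟨A, rfl⟩
        have h3 : (ρ (j x) ^ A) q ≤ ρ (j x) ((ρ (j x) ^ A) q) := by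
          have h4 : ρ (j x) ((ρ (j x) ^ A) q) = (ρ (j x) ^ A) (ρ (j x) q) :=
            congrArg (fun g : X ≃o X => g q)
              ((pow_succ' (ρ (j x)) A).symm.trans (pow_succ (ρ (j x)) A))
          rw [h4]
          exact (ρ (j x) ^ A).monotone hqx.le
        exact h3.trans ((ρ (j x)).monotone (le_sSup ⟨A, rfl⟩))
    have hfe := hs.fix _ hfix
    have h5 : sSup S ≤ q := by
      have := (ρ (j e)).monotone hsle
      rwa [hfe] at this
    have h6 : ρ (j x) q ≤ sSup S := le_sSup ⟨1, by rw [pow_one]⟩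
    exact absurd (h6.trans h5) (not_le.mpr hqx)
  · have h1 := h₁.fix X (ρ.comp j) _ hxe p h x
    exact absurd h1 hp.ne'
  · -- all elements move `p` up
    have hall : ∀ B : ℕ, 1 ≤ B → p < ρ (j x) ((ρ (j e) ^ B) p) := by
      intro B hB
      have := h₁.up X (ρ.comp j) _ hxe (x ^ 1 * e ^ B) ⟨1, B, le_rfl, hB, rfl⟩ p h
      rwa [e1, pow_one] at this
    set S : Set X := {w | ∃ B : ℕ, w = (ρ (j e) ^ B) p} with hS
    have hfix : ρ (j e) (sInf S) = sInf S := by
      refine le_antisymm ?_ ?_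
      · refine le_sInf ?_
        rintro w ⟨B, rfl⟩
        have h3 : ρ (j e) ((ρ (j e) ^ B) p) ≤ (ρ (j e) ^ B) p := by
          have h4 : ρ (j e) ((ρ (j e) ^ B) p) = (ρ (j e) ^ B) (ρ (j e) p) :=
            congrArg (fun g : X ≃o X => g p)
              ((pow_succ' (ρ (j e)) B).symm.trans (pow_succ (ρ (j e)) B))
          rw [h4]
          exact (ρ (j e) ^ B).monotone hpe.le
        have h7 : sInf S ≤ (ρ (j e) ^ B) p := sInf_le ⟨B, rfl⟩
        exact ((ρ (j e)).monotone h7).trans h3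
      · rw [(ρ (j e)).map_sInf]
        refine le_iInf₂ ?_
        rintro w ⟨B, rfl⟩
        refine sInf_le ⟨B + 1, ?_⟩
        rw [pow_succ']; rfl
    have hfx := conv _ hfix
    have h5 : p ≤ sInf S := by
      rw [← hfx, (ρ (j x)).map_sInf]
      refine le_iInf₂ ?_
      rintro w ⟨B, rfl⟩
      rcases Nat.eq_zero_or_pos B with h0 | h0
      · rw [h0, pow_zero]; exact hp.le
      · exact (hall B h0).le
    have h6 : sInf S ≤ ρ (j e) p := sInf_le ⟨1, by rw [pow_one]⟩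
    exact absurd (h5.trans h6) (not_le.mpr hpe)

/-- Two members, the first one of kind `quadrant`. -/
theorem two_dir {x e : N} {Q : Set M} (h₁ : Dir.{u} N (pos .quadrant x e)) (h₂ : Dir.{u} M Q)
    (j : N →* G) (f : M →* G) (hb : Both (f '' Q) (j x) (j e)⁻¹)
    (gen : j.range ⊔ f.range = ⊤) {X : Type u}
    [CompleteLinearOrder X] (ρ : G →* (X ≃o X)) (p : X) (g : G) : ρ g p = p := by
  have hx : ρ (j x) p = p := by
    refine le_antisymm (not_lt.mp (two_up h₁ h₂ j f hb ρ p)) (not_lt.mp ?_)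
    exact two_up (X := Xᵒᵈ) h₁ h₂ j f hb (dualHom ρ) p
  have he := (h₂.scap f ρ hb).fix p hx
  have t1 : ∀ g, ρ (j g) p = p := by
    refine h₁.fix X (ρ.comp j) (x ^ 1 * e ^ 1) ⟨1, 1, le_rfl, le_rfl, rfl⟩ p ?_
    rw [pow_one, pow_one, map_mul]
    show ρ (j x) (ρ (j e) p) = p
    rw [he, hx]
  have t2 : ∀ g, ρ (f g) p = p := fun g => h₂.both_fix f ρ hb hx g
  have hle : (⊤ : Subgroup G) ≤ (MulAction.stabilizer (X ≃o X) p).comap ρ := by
    rw [← gen, sup_le_iff]
    constructor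
    · rintro _ ⟨g, rfl⟩; exact t1 g
    · rintro _ ⟨g, rfl⟩; exact t2 g
  exact hle (Subgroup.mem_top g)

end two

end Pool.Agent.L7h80.AP
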